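import Mathlib
import Pool.Agent.X177.Hyp.Core

/-!
# A non-flat hyperbolic (4,6)-distribution germ with Reeb directions

On `ℝ⁶` with coordinates `(x₁, y₁, z₁, x₂, y₂, z₂)` let
`λ₁ = dz₁ - y₁ dx₁ - y₂ dx₂`, `λ₂ = dz₂ - (1 + x₁) y₁ dx₁` and `D = ker λ₁ ∩ ker λ₂`.
The forms do not depend on `z₁, z₂`, so `∂_{z₁}, ∂_{z₂}` are Reeb directions; the form `q_D` is
`q(a λ₁ + b λ₂) = 2 a (a + (1 + x₁) b)`, which is indefinite near `0`.
One of its two null directions is spanned by a form `β = λ₂ - (1 + x₁) λ₁` with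
`β ∧ dβ ∧ dβ ≠ 0`, which does not happen for the flat hyperbolic germ.
-/

set_option maxSynthPendingDepth 3

open scoped ContDiff Topology
open Set Filter

namespace Pool.Agent.Results.MP_08c0df_gt.NonflatReebGerm

open Pool.Agent.X177.Hyp

/-- The exterior derivative of a 1-form on `ℝ⁶`. -/
noncomputable def dOne (lam : E6 → (E6 →L[ℝ] ℝ)) (x u v : E6) : ℝ :=
  fderiv ℝ lam x u v - fderiv ℝ lam x v u

/-- The field of subspaces `D` is, near `p`, a smooth distribution of rank 4: it is the common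
kernel of two smooth 1-forms which are linearly independent at every point near `p`. -/
def IsDistributionGerm (D : E6 → Submodule ℝ E6) (p : E6) : Prop :=
  ∃ lam : Fin 2 → E6 → (E6 →L[ℝ] ℝ), ∀ᶠ x in 𝓝 p, (∀ i, ContDiffAt ℝ ∞ (lam i) x) ∧
    LinearIndependent ℝ (fun i => lam i x) ∧ ∀ v, v ∈ D x ↔ ∀ i, lam i x v = 0

/-- `om` is (on `D x`) the form `ψ ∘ 𝓛_x`, where `𝓛_x(u, v) = [u, v] mod D x` is the curvature of
`D` at `x` and `ψ` is a linear form on the tangent space which vanishes on `D x`. -/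
def IsCurvatureForm (D : E6 → Submodule ℝ E6) (x : E6) (ψ : E6 →L[ℝ] ℝ) (om : E6 → E6 → ℝ) :
    Prop :=
  (∀ v ∈ D x, ψ v = 0) ∧ ∀ U V : E6 → E6, ContDiffAt ℝ ∞ U x → ContDiffAt ℝ ∞ V x →
    (∀ᶠ y in 𝓝 x, U y ∈ D y) → (∀ᶠ y in 𝓝 x, V y ∈ D y) →
    om (U x) (V x) = ψ (VectorField.lieBracket ℝ U V x)

/-- Half the value of `om ∧ om` on the quadruple `e`. -/
def pf (om : E6 → E6 → ℝ) (e : Fin 4 → E6) : ℝ :=
  om (e 0) (e 1) * om (e 2) (e 3) - om (e 0) (e 2) * om (e 1) (e 3) + om (e 0) (e 3) * om (e 1) (e 2)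

/-- `D` is hyperbolic near `p`: at every point `x` near `p`, the quadratic form
`q_D(ψ) = (ψ ∘ 𝓛_x) ∧ (ψ ∘ 𝓛_x)` on the plane of forms `ψ` vanishing on `D x` takes (with respect
to a basis `e` of `D x`) positive and negative values, i.e. it is nondegenerate and indefinite. -/
def IsHyperbolic (D : E6 → Submodule ℝ E6) (p : E6) : Prop :=
  ∀ᶠ x in 𝓝 p, ∃ e : Fin 4 → E6, LinearIndependent ℝ e ∧ Submodule.span ℝ (range e) = D x ∧
    (∃ ψ om, IsCurvatureForm D x ψ om ∧ 0 < pf om e) ∧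
    (∃ ψ om, IsCurvatureForm D x ψ om ∧ pf om e < 0)

/-- `D` admits Reeb directions near `p` (conditions (i)-(iv) of the problem). -/
def AdmitsReebDirections (D : E6 → Submodule ℝ E6) (p : E6) : Prop :=
  ∃ (lam : Fin 2 → E6 → (E6 →L[ℝ] ℝ)) (Z : Fin 2 → E6 → E6), ∀ᶠ x in 𝓝 p,
    (∀ i, ContDiffAt ℝ ∞ (lam i) x) ∧ (∀ i, ContDiffAt ℝ ∞ (Z i) x) ∧
    (∀ v, v ∈ D x ↔ ∀ i, lam i x v = 0) ∧
    IsCompl (D x) (Submodule.span ℝ (range fun i => Z i x)) ∧
    (∀ i j, lam i x (Z j x) = if i = j then 1 else 0) ∧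
    (∀ i j, ∀ v ∈ D x, dOne (lam j) x (Z i x) v = 0) ∧
    VectorField.lieBracket ℝ (Z 0) (Z 1) x = 0

/-- A local diffeomorphism carries the germ of `D` at `p` to the germ of `D'` at `p'`. -/
def GermDiffeomorphic (D : E6 → Submodule ℝ E6) (p : E6) (D' : E6 → Submodule ℝ E6) (p' : E6) :
    Prop :=
  ∃ Φ : OpenPartialHomeomorph E6 E6, p ∈ Φ.source ∧ Φ p = p' ∧ ContDiffOn ℝ ∞ Φ Φ.source ∧
    ContDiffOn ℝ ∞ Φ.symm Φ.target ∧
    ∀ x ∈ Φ.source, (D x).map (fderiv ℝ Φ x : E6 →ₗ[ℝ] E6) = D' (Φ x)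

/-- The flat hyperbolic distribution `ker (dz₁ - y₁ dx₁) ∩ ker (dz₂ - y₂ dx₂)` on
`ℝ⁶ = ℝ³ × ℝ³`, with coordinates `(x₁, y₁, z₁, x₂, y₂, z₂)` of index `0, …, 5`. -/
def flatHyperbolic (x : E6) : Submodule ℝ E6 where
  carrier := {v | v 2 - x 1 * v 0 = 0 ∧ v 5 - x 4 * v 3 = 0}
  add_mem' := by
    rintro a b ⟨h1, h2⟩ ⟨h3, h4⟩
    refine ⟨?_, ?_⟩
    · show a 2 + b 2 - x 1 * (a 0 + b 0) = 0
      linear_combination h1 + h3
    · show a 5 + b 5 - x 4 * (a 3 + b 3) = 0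
      linear_combination h2 + h4
  zero_mem' := by
    refine ⟨?_, ?_⟩ <;> simp
  smul_mem' := by
    rintro c a ⟨h1, h2⟩
    refine ⟨?_, ?_⟩
    · show c * a 2 - x 1 * (c * a 0) = 0
      linear_combination c * h1
    · show c * a 5 - x 4 * (c * a 3) = 0
      linear_combination c * h2

/-- The example. -/
def exD (x : E6) : Submodule ℝ E6 where
  carrier := {v | v 2 - x 1 * v 0 - x 4 * v 3 = 0 ∧ v 5 - (1 + x 0) * x 1 * v 0 = 0}
  add_mem' := by
    rintro a b ⟨h1, h2⟩ ⟨h3, h4⟩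
    refine ⟨?_, ?_⟩
    · show a 2 + b 2 - x 1 * (a 0 + b 0) - x 4 * (a 3 + b 3) = 0
      linear_combination h1 + h3
    · show a 5 + b 5 - (1 + x 0) * x 1 * (a 0 + b 0) = 0
      linear_combination h2 + h4
  zero_mem' := by
    refine ⟨?_, ?_⟩ <;> simp
  smul_mem' := by
    rintro c a ⟨h1, h2⟩
    refine ⟨?_, ?_⟩
    · show c * a 2 - x 1 * (c * a 0) - x 4 * (c * a 3) = 0
      linear_combination c * h1
    · show c * a 5 - (1 + x 0) * x 1 * (c * a 0) = 0
      linear_combination c * h2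

theorem mem_flat (x v : E6) : v ∈ flatHyperbolic x ↔
    v 2 - x 1 * v 0 = 0 ∧ v 5 - x 4 * v 3 = 0 := Iff.rfl

theorem mem_exD (x v : E6) : v ∈ exD x ↔
    v 2 - x 1 * v 0 - x 4 * v 3 = 0 ∧ v 5 - (1 + x 0) * x 1 * v 0 = 0 := Iff.rfl

/-- coordinate functionals -/
noncomputable abbrev pr (i : Fin 6) : E6 →L[ℝ] ℝ :=
  ContinuousLinearMap.proj (R := ℝ) (φ := fun _ : Fin 6 => ℝ) i

/-- the forms `λ₁`, `λ₂` -/
noncomputable def lam (i : Fin 2) (x : E6) : E6 →L[ℝ] ℝ :=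
  match i with
  | 0 => pr 2 - x 1 • pr 0 - x 4 • pr 3
  | 1 => pr 5 - ((1 + x 0) * x 1) • pr 0

theorem lam0_apply (x v : E6) : lam 0 x v = v 2 - x 1 * v 0 - x 4 * v 3 := rfl
theorem lam1_apply (x v : E6) : lam 1 x v = v 5 - (1 + x 0) * x 1 * v 0 := rfl

theorem smooth_lam (i : Fin 2) : ContDiff ℝ ∞ (lam i) := by
  fin_cases i
  · show ContDiff ℝ ∞ (fun x : E6 => pr 2 - x 1 • pr 0 - x 4 • pr 3)
    fun_prop
  · show ContDiff ℝ ∞ (fun x : E6 => pr 5 - ((1 + x 0) * x 1) • pr 0)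
    fun_prop

theorem mem_iff (x v : E6) : v ∈ exD x ↔ ∀ i, lam i x v = 0 := by
  rw [mem_exD, Fin.forall_fin_two, lam0_apply, lam1_apply]

/-- the Reeb fields -/
def Zf (i : Fin 2) (x : E6) : E6 :=
  match i with
  | 0 => T1 x
  | 1 => T2 x

theorem indep_lam (x : E6) : LinearIndependent ℝ (fun i => lam i x) := by
  rw [Fintype.linearIndependent_iff]
  intro g hg
  rw [Fin.sum_univ_two] at hg
  have h1 := congrArg (fun L : E6 →L[ℝ] ℝ => L (T1 x)) hg
  have h2 := congrArg (fun L : E6 →L[ℝ] ℝ => L (T2 x)) hg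
  simp only [add_apply, smul_apply, lam0_apply, lam1_apply, T1, T2, smul_eq_mul] at h1 h2
  simp at h1 h2
  intro i
  fin_cases i
  · exact h1
  · exact h2

theorem hasFDerivAt_coord (i : Fin 6) (x : E6) : HasFDerivAt (fun y : E6 => y i) (pr i) x :=
  (pr i).hasFDerivAt

theorem dOne_lam0 (x u v : E6) : dOne (lam 0) x u v
    = u 0 * v 1 - u 1 * v 0 + (u 3 * v 4 - u 4 * v 3) := by
  have h : HasFDerivAt (lam 0) _ x :=
    ((hasFDerivAt_const (pr 2) x).sub ((hasFDerivAt_coord 1 x).smul_const (pr 0))).sub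
      ((hasFDerivAt_coord 4 x).smul_const (pr 3))
  unfold dOne
  rw [h.fderiv]
  simp
  ring

theorem dOne_lam1 (x u v : E6) : dOne (lam 1) x u v = (1 + x 0) * (u 0 * v 1 - u 1 * v 0) := by
  have h : HasFDerivAt (lam 1) _ x :=
    (hasFDerivAt_const (pr 5) x).sub
      ((((hasFDerivAt_coord 0 x).const_add 1).mul (hasFDerivAt_coord 1 x)).smul_const (pr 0))
  unfold dOne
  rw [h.fderiv]
  simp
  ring

/-- Cartan's formula: for a form vanishing on `D`, the curvature is minus the exterior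
derivative. -/
theorem cartan {al : E6 → (E6 →L[ℝ] ℝ)} {x : E6} (hal : ContDiffAt ℝ ∞ al x)
    (hker : ∀ y, ∀ v ∈ exD y, al y v = 0) :
    IsCurvatureForm exD x (al x) (fun u v => -dOne al x u v) := by
  refine ⟨hker x, ?_⟩
  intro U V hU hV hUD hVD
  have key : ∀ W : E6 → E6, ContDiffAt ℝ ∞ W x → (∀ᶠ y in 𝓝 x, W y ∈ exD y) → ∀ w : E6,
      fderiv ℝ al x w (W x) + al x (fderiv ℝ W x w) = 0 := by
    intro W hW hWD w
    have h1 : (fun y => al y (W y)) =ᶠ[𝓝 x] fun _ => 0 := by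
      filter_upwards [hWD] with y hy using hker y _ hy
    have h2 : HasFDerivAt (fun y => al y (W y)) _ x :=
      ((hal.differentiableAt (by simp)).hasFDerivAt).clm_apply
        ((hW.differentiableAt (by simp)).hasFDerivAt)
    have h3 := h2.fderiv
    rw [h1.fderiv_eq] at h3
    have h4 := congrArg (fun L : E6 →L[ℝ] ℝ => L w) h3
    simp at h4
    linarith
  have hUV := key V hV hVD (U x)
  have hVU := key U hU hUD (V x)
  show -(fderiv ℝ al x (U x) (V x) - fderiv ℝ al x (V x) (U x))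
    = al x (fderiv ℝ V x (U x) - fderiv ℝ U x (V x))
  rw [map_sub]
  linarith

/-- the frame -/
def fr (x : E6) (i : Fin 4) : E6 :=
  match i with
  | 0 => F1 x
  | 1 => F2 x
  | 2 => F3 x
  | 3 => F4 x

theorem fr_comb (x : E6) (g : Fin 4 → ℝ) : ∑ i, g i • fr x i =
    ![g 0, g 1, g 0 * x 1 + g 2 * x 4, g 2, g 3, g 0 * ((1 + x 0) * x 1)] := by
  rw [Fin.sum_univ_four]
  ext i
  fin_cases i <;> simp [fr, F1, F2, F3, F4]

theorem fr_indep (x : E6) : LinearIndependent ℝ (fr x) := by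
  rw [Fintype.linearIndependent_iff]
  intro g hg
  rw [fr_comb] at hg
  have h0 := congrFun hg 0
  have h1 := congrFun hg 1
  have h3 := congrFun hg 3
  have h4 := congrFun hg 4
  simp at h0 h1 h3 h4
  intro i
  fin_cases i <;> assumption

theorem fr_mem (x : E6) (i : Fin 4) : fr x i ∈ exD x := by
  rw [mem_exD]
  fin_cases i <;> simp [fr, F1, F2, F3, F4]

theorem fr_span (x : E6) : Submodule.span ℝ (range (fr x)) = exD x := by
  apply le_antisymm
  · rw [Submodule.span_le]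
    rintro _ ⟨i, rfl⟩
    exact fr_mem x i
  · intro v hv
    rw [mem_exD] at hv
    have h : v = ∑ i, (![v 0, v 1, v 3, v 4] : Fin 4 → ℝ) i • fr x i := by
      rw [fr_comb]
      ext i
      fin_cases i
      · rfl
      · rfl
      · show v 2 = v 0 * x 1 + v 3 * x 4
        linarith [hv.1]
      · rfl
      · rfl
      · show v 5 = v 0 * ((1 + x 0) * x 1)
        linarith [hv.2]
    rw [h]
    exact Submodule.sum_mem _ fun i _ =>
      Submodule.smul_mem _ _ (Submodule.subset_span ⟨i, rfl⟩)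

theorem hyperbolic : IsHyperbolic exD 0 := by
  have hc : ContinuousAt (fun x : E6 => x 0) 0 := (continuous_apply 0).continuousAt
  have hpos : ∀ᶠ x : E6 in 𝓝 0, -1 < x 0 := hc.eventually_const_lt (by simp)
  filter_upwards [hpos] with x hx
  refine ⟨fr x, fr_indep x, fr_span x, ?_, ?_⟩
  · refine ⟨lam 0 x, _, cartan (smooth_lam 0).contDiffAt (fun y v hv => (mem_iff y v).1 hv 0), ?_⟩
    simp only [pf, dOne_lam0, fr]
    simp [F1, F2, F3, F4]
  · -- `λ₁ - s λ₂` with `s = 2 / (1 + x₁)`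
    set s : ℝ := 2 / (1 + x 0) with hs
    have hsx : s * (1 + x 0) = 2 := by
      rw [hs, div_mul_cancel₀]
      linarith
    have hsm : ContDiff ℝ ∞ (fun y => lam 0 y - s • lam 1 y) :=
      (smooth_lam 0).sub ((smooth_lam 1).const_smul s)
    refine ⟨lam 0 x - s • lam 1 x, _, cartan (al := fun y => lam 0 y - s • lam 1 y)
      hsm.contDiffAt (fun y v hv => ?_), ?_⟩
    · simp only [sub_apply, smul_apply]
      rw [(mem_iff y v).1 hv 0, (mem_iff y v).1 hv 1]
      simp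
    · have hd : ∀ u v, dOne (fun y => lam 0 y - s • lam 1 y) x u v
          = dOne (lam 0) x u v - s * dOne (lam 1) x u v := by
        intro u v
        have h1 : fderiv ℝ (fun y => lam 0 y - s • lam 1 y) x
            = fderiv ℝ (lam 0) x - s • fderiv ℝ (lam 1) x := by
          have a0 : DifferentiableAt ℝ (lam 0) x := (smooth_lam 0).differentiable (by simp) x
          have a1 : DifferentiableAt ℝ (lam 1) x := (smooth_lam 1).differentiable (by simp) x
          exact (a0.hasFDerivAt.sub (a1.hasFDerivAt.const_smul s)).fderiv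
        unfold dOne
        rw [h1]
        simp
        ring
      simp only [pf, hd, dOne_lam0, dOne_lam1, fr]
      simp [F1, F2, F3, F4]
      linarith

theorem reeb : AdmitsReebDirections exD 0 := by
  refine ⟨lam, Zf, Eventually.of_forall fun x => ⟨fun i => (smooth_lam i).contDiffAt, ?_,
    mem_iff x, ?_, ?_, ?_, ?_⟩⟩
  · intro i
    fin_cases i
    · exact cd_T1.contDiffAt
    · exact cd_T2.contDiffAt
  · have hspan : ∀ w, w ∈ Submodule.span ℝ (range fun i => Zf i x) ↔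
        ∃ a b : ℝ, w = ![0, 0, a, 0, 0, b] := by
      intro w
      have hr : (range fun i => Zf i x) = {T1 x, T2 x} := by
        ext y
        constructor
        · rintro ⟨i, rfl⟩
          fin_cases i
          · left; rfl
          · right; rfl
        · rintro (rfl | rfl)
          · exact ⟨0, rfl⟩
          · exact ⟨1, rfl⟩
      rw [hr, Submodule.mem_span_pair]
      constructor
      · rintro ⟨a, b, rfl⟩
        refine ⟨a, b, ?_⟩
        ext i
        fin_cases i <;> simp [T1, T2]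
      · rintro ⟨a, b, rfl⟩
        refine ⟨a, b, ?_⟩
        ext i
        fin_cases i <;> simp [T1, T2]
    constructor
    · rw [Submodule.disjoint_def]
      intro w hw hw2
      rw [hspan] at hw2
      obtain ⟨a, b, rfl⟩ := hw2
      rw [mem_exD] at hw
      simp at hw
      rw [hw.1, hw.2]
      ext i
      fin_cases i <;> simp
    · rw [Submodule.codisjoint_iff_exists_add_eq]
      intro v
      refine ⟨![v 0, v 1, x 1 * v 0 + x 4 * v 3, v 3, v 4, (1 + x 0) * x 1 * v 0],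
        ![0, 0, v 2 - (x 1 * v 0 + x 4 * v 3), 0, 0, v 5 - (1 + x 0) * x 1 * v 0], ?_, ?_, ?_⟩
      · rw [mem_exD]
        constructor <;> simp
      · rw [hspan]
        exact ⟨_, _, rfl⟩
      · ext i
        fin_cases i <;> simp
  · intro i j
    fin_cases i <;> fin_cases j
    · show lam 0 x (T1 x) = _
      rw [lam0_apply]; simp [T1]
    · show lam 0 x (T2 x) = _
      rw [lam0_apply]; simp [T2]
    · show lam 1 x (T1 x) = _
      rw [lam1_apply]; simp [T1]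
    · show lam 1 x (T2 x) = _
      rw [lam1_apply]; simp [T2]
  · intro i j v _
    fin_cases i <;> fin_cases j
    · show dOne (lam 0) x (T1 x) v = _
      rw [dOne_lam0]; simp [T1]
    · show dOne (lam 1) x (T1 x) v = _
      rw [dOne_lam1]; simp [T1]
    · show dOne (lam 0) x (T2 x) v = _
      rw [dOne_lam0]; simp [T2]
    · show dOne (lam 1) x (T2 x) v = _
      rw [dOne_lam1]; simp [T2]
  · have h1 : Zf 0 = fun _ => (![0, 0, 1, 0, 0, 0] : E6) := rfl
    have h2 : Zf 1 = fun _ => (![0, 0, 0, 0, 0, 1] : E6) := rfl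
    rw [h1, h2, VectorField.lieBracket]
    simp

theorem not_flat : ¬ GermDiffeomorphic exD 0 flatHyperbolic 0 := by
  rintro ⟨Φ, h0, -, hΦ, hΦs, hD⟩
  have hU := Φ.open_source
  have hcomp : ∀ i : Fin 6, ContDiffOn ℝ ∞ (fun x => Φ x i) Φ.source := fun i =>
    (contDiffOn_pi.1 hΦ) i
  have hdiff : ∀ x ∈ Φ.source, DifferentiableAt ℝ Φ x := fun x hx =>
    ((hΦ.contDiffAt (hU.mem_nhds hx)).differentiableAt (by simp))
  have hco : ∀ x ∈ Φ.source, ∀ (v : E6) (i : Fin 6),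
      fderiv ℝ (fun y => Φ y i) x v = fderiv ℝ Φ x v i := by
    intro x hx v i
    have h3 : HasFDerivAt (fun y => Φ y i) ((pr i).comp (fderiv ℝ Φ x)) x :=
      (hasFDerivAt_pi'.1 (hdiff x hx).hasFDerivAt) i
    rw [h3.fderiv]
    rfl
  -- the pullback relations
  have hpull : ∀ x ∈ Φ.source, ∀ v ∈ exD x,
      fderiv ℝ (fun y => Φ y 2) x v = Φ x 1 * fderiv ℝ (fun y => Φ y 0) x v ∧
      fderiv ℝ (fun y => Φ y 5) x v = Φ x 4 * fderiv ℝ (fun y => Φ y 3) x v := by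
    intro x hx v hv
    have h1 : fderiv ℝ Φ x v ∈ flatHyperbolic (Φ x) := by
      rw [← hD x hx]
      exact Submodule.mem_map_of_mem (f := (fderiv ℝ Φ x : E6 →ₗ[ℝ] E6)) hv
    rw [mem_flat] at h1
    rw [hco x hx, hco x hx, hco x hx, hco x hx]
    exact ⟨by linarith [h1.1], by linarith [h1.2]⟩
  have k1 := key hU h0 (hcomp 0) (hcomp 1) (hcomp 2)
    (fun x hx => (hpull x hx _ (fr_mem x 0)).1) (fun x hx => (hpull x hx _ (fr_mem x 1)).1)
    (fun x hx => (hpull x hx _ (fr_mem x 2)).1) (fun x hx => (hpull x hx _ (fr_mem x 3)).1)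
  have k2 := key hU h0 (hcomp 3) (hcomp 4) (hcomp 5)
    (fun x hx => (hpull x hx _ (fr_mem x 0)).2) (fun x hx => (hpull x hx _ (fr_mem x 1)).2)
    (fun x hx => (hpull x hx _ (fr_mem x 2)).2) (fun x hx => (hpull x hx _ (fr_mem x 3)).2)
  have k1' : fderiv ℝ Φ 0 (T1 0) 2 - Φ 0 1 * fderiv ℝ Φ 0 (T1 0) 0 = 0 := by
    rw [← hco 0 h0, ← hco 0 h0]; exact k1
  have k2' : fderiv ℝ Φ 0 (T1 0) 5 - Φ 0 4 * fderiv ℝ Φ 0 (T1 0) 3 = 0 := by
    rw [← hco 0 h0, ← hco 0 h0]; exact k2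
  have hmem : fderiv ℝ Φ 0 (T1 0) ∈ flatHyperbolic (Φ 0) := ⟨k1', k2'⟩
  rw [← hD 0 h0] at hmem
  obtain ⟨v, hv, hv2⟩ := hmem
  -- injectivity of the derivative
  have hinj : Function.Injective (fderiv ℝ Φ 0) := by
    have hs : DifferentiableAt ℝ Φ.symm (Φ 0) :=
      ((hΦs.contDiffAt (Φ.open_target.mem_nhds (Φ.map_source h0))).differentiableAt (by simp))
    have h1 : (Φ.symm ∘ Φ) =ᶠ[𝓝 0] id := by
      filter_upwards [hU.mem_nhds h0] with y hy using Φ.left_inv hy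
    have h2 : fderiv ℝ (Φ.symm ∘ Φ) 0 = (fderiv ℝ Φ.symm (Φ 0)).comp (fderiv ℝ Φ 0) :=
      fderiv_comp 0 hs (hdiff 0 h0)
    rw [h1.fderiv_eq, fderiv_id] at h2
    intro a b hab
    have h3 := congrArg (fun L : E6 →L[ℝ] E6 => L a) h2
    have h4 := congrArg (fun L : E6 →L[ℝ] E6 => L b) h2
    simp at h3 h4
    rw [h3, h4, hab]
  have hveq : v = T1 0 := hinj hv2
  rw [hveq] at hv
  have h5 := ((mem_exD 0 (T1 0)).1 hv).1
  simp [T1] at h5

/-- There is a hyperbolic (4,6)-distribution germ (at `0 ∈ ℝ⁶`) which admits Reeb directions and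
is not diffeomorphic to the flat hyperbolic germ. -/
theorem result : ∃ D : E6 → Submodule ℝ E6, IsDistributionGerm D 0 ∧ IsHyperbolic D 0 ∧
    AdmitsReebDirections D 0 ∧ ¬ GermDiffeomorphic D 0 flatHyperbolic 0 :=
  ⟨exD, ⟨lam, Eventually.of_forall fun x => ⟨fun i => (smooth_lam i).contDiffAt, indep_lam x,
    mem_iff x⟩⟩, hyperbolic, reeb, not_flat⟩

end Pool.Agent.Results.MP_08c0df_gt.NonflatReebGerm
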